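import Pool.Agent.helper10.NCA.Spec

/-!
# p2k:SLB (MP_70a088_an): basic facts of the component `SL` (helper3)
-/

set_option autoImplicit false

open Complex Metric Set Filter Topology MeasureTheory
open Pool.Agent.helper98.ILF
open WP (it)
open HY (UD T S hd UN RM)
open PM
open P2 (SS FL FLS CLS FR TL)
open PL (TP LO PZ GJ INR PG DK ht tr DI CY hG)
open P2G (PV yy rr FJ PD)
open V3 (Chain chi)
open EG (wnd)
open CH (Off)
open P2Z (nt ji)

noncomputable section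

namespace NCA

theorem SLB (hPSB : P2G.PSB_stmt) : SLB_stmt := by
  intro f R μ x₀ U z H T χ G χ' hPD c ζ₀ ρ₀ W hc hBP hW hcW
  obtain ⟨hO, -, -, -, -, -, hdif, -⟩ := hPSB f R μ x₀ U z H T χ G χ' hPD
  have hDo : IsOpen {ζ | ζ ∈ χ '' UD ∧ χ' (G ζ) ∈ W} := by
    have := hdif.continuousOn.isOpen_inter_preimage hO hW
    exact this
  have hball : ball ζ₀ ρ₀ ⊆ {ζ | ζ ∈ χ '' UD ∧ χ' (G ζ) ∈ W} := by
    intro ζ hζ
    exact ⟨hBP.sub hζ, hcW (ball_subset_ball (by linarith) (hBP.mp ζ hζ))⟩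
  have hsub := connectedComponentIn_subset {ζ | ζ ∈ χ '' UD ∧ χ' (G ζ) ∈ W} ζ₀
  refine ⟨hDo.connectedComponentIn, isPreconnected_connectedComponentIn, ?_, ?_, ?_, ?_⟩
  · exact (convex_ball ζ₀ ρ₀).isPreconnected.subset_connectedComponentIn (mem_ball_self hBP.r0) hball
  · exact fun ζ hζ => (hsub hζ).1
  · exact fun ζ hζ => (hsub hζ).2
  · rintro N hN hNΩ hNW ⟨ζ, hζN, hζS⟩
    have h1 : N ⊆ connectedComponentIn {ζ | ζ ∈ χ '' UD ∧ χ' (G ζ) ∈ W} ζ :=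
      hN.subset_connectedComponentIn hζN fun w hw => ⟨hNΩ hw, hNW w hw⟩
    have h2 : connectedComponentIn {ζ | ζ ∈ χ '' UD ∧ χ' (G ζ) ∈ W} ζ₀ =
        connectedComponentIn {ζ | ζ ∈ χ '' UD ∧ χ' (G ζ) ∈ W} ζ := connectedComponentIn_eq hζS
    unfold SL
    rw [h2]
    exact h1

end NCA
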